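import Pool.Agent.Work.Godb.EqFinal

set_option autoImplicit false

/-!
# MP_0078d6_gt: the unbalanced Rogers-Shephard inequality, with its equality case, in all dimensions
-/

open MeasureTheory Set Module
open scoped Pointwise ENNReal

namespace Pool.Agent.Results.MP_0078d6_gt.UnbalancedRogersShephard

/-- the volumes are finite and positive -/
private theorem real_pos {n : ℕ} {K : Set (EuclideanSpace ℝ (Fin n))} (hKc : IsCompact K)
    (hne : (interior K).Nonempty) : 0 < volume.real K := by
  rw [Measure.real]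
  refine ENNReal.toReal_pos ?_ hKc.measure_lt_top.ne
  have h1 : 0 < volume (interior K) := isOpen_interior.measure_pos volume hne
  exact (h1.trans_le (measure_mono interior_subset)).ne'

/-- the polynomial with its coefficients, in real numbers -/
private theorem real_core {n : ℕ} {K : Set (EuclideanSpace ℝ (Fin n))} (hKc : IsCompact K)
    (hK : Convex ℝ K) (hne : (interior K).Nonempty) :
    ∃ c : ℕ → ℝ, (∀ i, 0 ≤ c i ∧ c i ≤ (n.choose i : ℝ) ^ 2 * volume.real K) ∧
      ∀ a b : ℝ, 0 ≤ a → 0 ≤ b → volume.real (a • K - b • K) =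
        ∑ i ∈ Finset.range (n + 1), c i * a ^ i * b ^ (n - i) := by
  obtain ⟨c, hc1, hc2⟩ := Pool.Agent.Godb.core_euclidean hKc hK hne
  refine ⟨c, hc1, fun a b ha hb => ?_⟩
  rw [Measure.real, hc2 a b ha hb, ENNReal.toReal_ofReal]
  exact Finset.sum_nonneg fun i _ => mul_nonneg (mul_nonneg (hc1 i).1 (pow_nonneg ha _)) (pow_nonneg hb _)

private theorem term_le {n : ℕ} {c : ℕ → ℝ} {V : ℝ}
    (hc : ∀ i, 0 ≤ c i ∧ c i ≤ (n.choose i : ℝ) ^ 2 * V) {a b : ℝ} (ha : 0 ≤ a) (hb : 0 ≤ b) (i : ℕ) :
    c i * a ^ i * b ^ (n - i) ≤ (n.choose i : ℝ) ^ 2 * a ^ i * b ^ (n - i) * V := by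
  have h3 : 0 ≤ a ^ i * b ^ (n - i) := mul_nonneg (pow_nonneg ha _) (pow_nonneg hb _)
  calc c i * a ^ i * b ^ (n - i) = c i * (a ^ i * b ^ (n - i)) := by ring
    _ ≤ ((n.choose i : ℝ) ^ 2 * V) * (a ^ i * b ^ (n - i)) := mul_le_mul_of_nonneg_right (hc i).2 h3
    _ = _ := by ring

private theorem le_main {n : ℕ} {K : Set (EuclideanSpace ℝ (Fin n))} (hKc : IsCompact K)
    (hK : Convex ℝ K) (hne : (interior K).Nonempty) {a b : ℝ} (ha : 0 ≤ a) (hb : 0 ≤ b) :
    volume.real (a • K - b • K) ≤
      (∑ i ∈ Finset.range (n + 1), (n.choose i : ℝ) ^ 2 * a ^ i * b ^ (n - i)) * volume.real K := by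
  obtain ⟨c, hc1, hc2⟩ := real_core hKc hK hne
  rw [hc2 a b ha hb, Finset.sum_mul]
  exact Finset.sum_le_sum fun i _ => term_le hc1 ha hb i

private theorem simplex_body {n : ℕ} {v : Fin (n + 1) → EuclideanSpace ℝ (Fin n)}
    (hv : AffineIndependent ℝ v) : IsCompact (convexHull ℝ (range v)) ∧
      Convex ℝ (convexHull ℝ (range v)) ∧ (interior (convexHull ℝ (range v))).Nonempty := by
  refine ⟨(finite_range v).isCompact_convexHull ℝ, convex_convexHull ℝ _, ?_⟩
  rw [interior_convexHull_nonempty_iff_affineSpan_eq_top]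
  exact hv.affineSpan_eq_top_iff_card_eq_finrank_add_one.2 (by simp)

private theorem simplex_eq {n : ℕ} {v : Fin (n + 1) → EuclideanSpace ℝ (Fin n)}
    (hv : AffineIndependent ℝ v) {a b : ℝ} (ha : 0 ≤ a) (hb : 0 ≤ b) :
    volume.real (a • convexHull ℝ (range v) - b • convexHull ℝ (range v)) =
      (∑ i ∈ Finset.range (n + 1), (n.choose i : ℝ) ^ 2 * a ^ i * b ^ (n - i)) *
        volume.real (convexHull ℝ (range v)) := by
  obtain ⟨h1, h2, h3⟩ := simplex_body hv
  refine le_antisymm (le_main h1 h2 h3 ha hb) ?_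
  have h4 := Pool.Agent.Godb.simplex_lower v hv ha hb
  have h5 : volume (a • convexHull ℝ (range v) - b • convexHull ℝ (range v)) ≠ ∞ := by
    rw [sub_eq_add_neg]
    exact ((h1.smul a).add (h1.smul b).neg).measure_lt_top.ne
  have h6 := ENNReal.toReal_mono h5 h4
  rwa [ENNReal.toReal_mul, ENNReal.toReal_ofReal] at h6
  exact Finset.sum_nonneg fun i _ => by positivity

/-- on the line every convex body is a segment -/
private theorem seg_of_one {K : Set (EuclideanSpace ℝ (Fin 1))} (hKc : IsCompact K)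
    (hK : Convex ℝ K) (hne : (interior K).Nonempty) :
    ∃ v : Fin 2 → EuclideanSpace ℝ (Fin 1), AffineIndependent ℝ v ∧ K = convexHull ℝ (range v) := by
  let e : EuclideanSpace ℝ (Fin 1) ≃L[ℝ] ℝ :=
    ContinuousLinearEquiv.ofFinrankEq (by simp)
  have h1 : IsCompact (e '' K) := hKc.image e.continuous
  have h2 : Convex ℝ (e '' K) := hK.linear_image e.toLinearMap
  have hKn : K.Nonempty := hne.mono interior_subset
  have h3 : (e '' K).Nonempty := hKn.image e
  have h4 := eq_Icc_of_connected_compact ⟨h3, h2.isPreconnected⟩ h1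
  set p := sInf (e '' K)
  set q := sSup (e '' K)
  have hpq : p ≤ q := by
    rw [h4] at h3
    exact nonempty_Icc.1 h3
  have h5 : e '' K = convexHull ℝ {p, q} := by
    rw [convexHull_pair, segment_eq_Icc hpq]
    exact h4
  have h6 : K = e.symm '' (e '' K) := by
    rw [Set.image_image]
    simp
  have h7 : K = convexHull ℝ (range ![e.symm p, e.symm q]) := by
    rw [h6, h5]
    have h8 := LinearMap.image_convexHull e.symm.toLinearMap {p, q}
    have h9 : ((e.symm.toLinearMap : ℝ →ₗ[ℝ] EuclideanSpace ℝ (Fin 1)) :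
        ℝ → EuclideanSpace ℝ (Fin 1)) = e.symm := rfl
    rw [h9] at h8
    rw [h8, Set.image_pair]
    simp [Matrix.range_cons, Matrix.range_empty, Set.pair_comm]
  refine ⟨![e.symm p, e.symm q], ?_, h7⟩
  exact Pool.Agent.Godb.E.affineIndependent_of_interior (by simp) _ (by rw [← h7]; exact hne)

/-- on a point every convex body is a simplex -/
private theorem pt_of_zero {K : Set (EuclideanSpace ℝ (Fin 0))} (hne : (interior K).Nonempty) :
    ∃ v : Fin 1 → EuclideanSpace ℝ (Fin 0), AffineIndependent ℝ v ∧ K = convexHull ℝ (range v) := by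
  refine ⟨fun _ => 0, affineIndependent_of_subsingleton ℝ _, ?_⟩
  obtain ⟨x, hx⟩ := hne
  have h1 : x ∈ K := interior_subset hx
  ext y
  have e1 : y = x := Subsingleton.elim _ _
  have e2 : (0 : EuclideanSpace ℝ (Fin 0)) = x := Subsingleton.elim _ _
  simp [e1, e2, h1]

private theorem eq_simplex {n : ℕ} {K : Set (EuclideanSpace ℝ (Fin n))} (hKc : IsCompact K)
    (hK : Convex ℝ K) (hne : (interior K).Nonempty) {a b : ℝ} (ha : 0 < a) (hb : 0 < b)
    (he : volume.real (a • K - b • K) =
      (∑ i ∈ Finset.range (n + 1), (n.choose i : ℝ) ^ 2 * a ^ i * b ^ (n - i)) * volume.real K) :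
    ∃ w : Fin (n + 1) → EuclideanSpace ℝ (Fin n),
      AffineIndependent ℝ w ∧ K = convexHull ℝ (range w) := by
  obtain ⟨c, hc1, hc2⟩ := real_core hKc hK hne
  rcases Nat.lt_or_ge 1 n with hn | hn
  · have h3 : ∀ i ∈ Finset.range (n + 1), c i * a ^ i * b ^ (n - i) =
        (n.choose i : ℝ) ^ 2 * a ^ i * b ^ (n - i) * volume.real K := by
      rw [hc2 a b ha.le hb.le, Finset.sum_mul] at he
      exact (Finset.sum_eq_sum_iff_of_le (fun i _ => term_le hc1 ha.le hb.le i)).1 he
    have hpos : ∀ i, i ≤ n → (0 : ℝ) < (n.choose i : ℝ) := fun i hi => by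
      exact_mod_cast Nat.choose_pos hi
    have h4 := h3 1 (Finset.mem_range.2 (by omega))
    have h5 : c 1 = (n.choose 1 : ℝ) ^ 2 * volume.real K := by
      have h6 : 0 < a ^ 1 * b ^ (n - 1) := mul_pos (pow_pos ha _) (pow_pos hb _)
      refine mul_right_cancel₀ h6.ne' ?_
      linear_combination h4
    refine ((Pool.Agent.Godb.E.godbersen n 1 K one_pos hn hKc hK hne
      (fun i => c i / (n.choose i : ℝ)) ?_).2).1 ?_
    · intro a' b' ha' hb'
      have h7 : a' • K + b' • (-K) = a' • K - b' • K := by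
        rw [Set.smul_set_neg, sub_eq_add_neg]
      rw [h7]
      have h8 := hc2 a' b' ha' hb'
      rw [Measure.real] at h8
      rw [h8]
      refine Finset.sum_congr rfl fun i hi => ?_
      rw [mul_div_cancel₀ _ (hpos i (by have := Finset.mem_range.1 hi; omega)).ne']
    · show c 1 / (n.choose 1 : ℝ) = (n.choose 1 : ℝ) * volume.real K
      rw [h5, div_eq_iff (hpos 1 hn.le).ne']
      ring
  · interval_cases n
    · exact pt_of_zero hne
    · exact seg_of_one hKc hK hne

/-- For every convex body `K` in `ℝ ^ n` and `0 ≤ t ≤ 1` the volume of `(1 - t) K - t K` is at most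
`∑ i, (n.choose i) ^ 2 (1 - t) ^ i t ^ (n - i)` times the volume of `K`, with equality for every
simplex, so that the simplices maximise the ratio; for `0 < t < 1` simplices are the only maximisers. -/
theorem result (n : ℕ) (K : Set (EuclideanSpace ℝ (Fin n))) (hK : IsCompact K) (hKc : Convex ℝ K)
    (hKi : (interior K).Nonempty) (v : Fin (n + 1) → EuclideanSpace ℝ (Fin n))
    (hv : AffineIndependent ℝ v) (t : ℝ) (ht0 : 0 ≤ t) (ht1 : t ≤ 1) :
    volume.real ((1 - t) • K - t • K) / volume.real K ≤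
        volume.real ((1 - t) • convexHull ℝ (range v) - t • convexHull ℝ (range v)) /
          volume.real (convexHull ℝ (range v)) ∧
      volume.real ((1 - t) • convexHull ℝ (range v) - t • convexHull ℝ (range v)) /
          volume.real (convexHull ℝ (range v)) =
        ∑ i ∈ Finset.range (n + 1), (n.choose i : ℝ) ^ 2 * (1 - t) ^ i * t ^ (n - i) ∧
      (0 < t → t < 1 →
        (volume.real ((1 - t) • K - t • K) / volume.real K =
            volume.real ((1 - t) • convexHull ℝ (range v) - t • convexHull ℝ (range v)) /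
              volume.real (convexHull ℝ (range v)) ↔
          ∃ w : Fin (n + 1) → EuclideanSpace ℝ (Fin n),
            AffineIndependent ℝ w ∧ K = convexHull ℝ (range w))) := by
  obtain ⟨s1, s2, s3⟩ := simplex_body hv
  have pK := real_pos hK hKi
  have pS := real_pos s1 s3
  have h1t : 0 ≤ 1 - t := by linarith
  have e1 := simplex_eq hv h1t ht0
  have e2 : volume.real ((1 - t) • convexHull ℝ (range v) - t • convexHull ℝ (range v)) /
      volume.real (convexHull ℝ (range v)) =
        ∑ i ∈ Finset.range (n + 1), (n.choose i : ℝ) ^ 2 * (1 - t) ^ i * t ^ (n - i) := by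
    rw [e1, mul_div_cancel_right₀ _ pS.ne']
  rw [e2]
  refine ⟨?_, rfl, ?_⟩
  · rw [div_le_iff₀ pK]
    exact le_main hK hKc hKi h1t ht0
  · intro ht0' ht1'
    rw [div_eq_iff pK.ne']
    constructor
    · intro he
      exact eq_simplex hK hKc hKi (by linarith) ht0' he
    · rintro ⟨w, hw, rfl⟩
      exact simplex_eq hw h1t ht0

end Pool.Agent.Results.MP_0078d6_gt.UnbalancedRogersShephard
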